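import Mathlib

/-!
The recurrence `x_{n+1} = (1 + x_n) / (C x_{n-1} + x_{n-2})` with `C = e^{-30}` has unbounded
positive solutions.
-/

namespace Pool.Agent.Results.MP_db9acb_an.Unbounded

/-- `ℓ(t) = log (1 + e^t)`. -/
noncomputable def ell (t : ℝ) : ℝ := Real.log (1 + Real.exp t)

lemma ell_pos (t : ℝ) : 0 < ell t :=
  Real.log_pos (by linarith [Real.exp_pos t])

lemma ell_le_exp (t : ℝ) : ell t ≤ Real.exp t := by
  have := Real.log_le_sub_one_of_pos (show 0 < 1 + Real.exp t by positivity)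
  unfold ell
  linarith

lemma ell_mono {s t : ℝ} (h : s ≤ t) : ell s ≤ ell t := by
  unfold ell
  apply Real.log_le_log (by positivity)
  linarith [Real.exp_le_exp.2 h]

lemma ell_eq (t : ℝ) : ell t = t + ell (-t) := by
  unfold ell
  have h : 1 + Real.exp t = Real.exp t * (1 + Real.exp (-t)) := by
    rw [mul_add, mul_one, ← Real.exp_add, add_neg_cancel, Real.exp_zero]
    ring
  rw [h, Real.log_mul (Real.exp_pos t).ne' (by positivity), Real.log_exp]

lemma le_ell (t : ℝ) : t ≤ ell t := by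
  rw [ell_eq]
  linarith [ell_pos (-t)]

lemma ell_zero_le : ell 0 ≤ 1 := by
  have := ell_le_exp 0
  rwa [Real.exp_zero] at this

lemma ell_le_of_nonpos {t : ℝ} (h : t ≤ 0) : ell t ≤ 1 := (ell_mono h).trans ell_zero_le

lemma ell_le_of_nonneg {t : ℝ} (h : 0 ≤ t) : ell t ≤ t + 1 := by
  rw [ell_eq]
  linarith [ell_le_of_nonpos (show -t ≤ 0 by linarith)]

lemma ell_sub_le {s t : ℝ} (h : s ≤ t) : ell t - ell s ≤ (t - s) * Real.exp t := by
  have h1 : ell t - ell s = Real.log ((1 + Real.exp t) / (1 + Real.exp s)) := by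
    unfold ell
    rw [Real.log_div (by positivity) (by positivity)]
  have h2 := Real.log_le_sub_one_of_pos
    (show 0 < (1 + Real.exp t) / (1 + Real.exp s) by positivity)
  have h3 : (1 + Real.exp t) / (1 + Real.exp s) - 1 =
      (Real.exp t - Real.exp s) / (1 + Real.exp s) := by
    field_simp
    ring
  have h4 : (Real.exp t - Real.exp s) / (1 + Real.exp s) ≤ Real.exp t - Real.exp s := by
    apply div_le_self
    · linarith [Real.exp_le_exp.2 h]
    · linarith [Real.exp_pos s]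
  have h5 : Real.exp t - Real.exp s ≤ (t - s) * Real.exp t := by
    have e1 : Real.exp s = Real.exp t * Real.exp (s - t) := by
      rw [← Real.exp_add]
      congr 1
      ring
    have e2 := Real.add_one_le_exp (s - t)
    have e3 := Real.exp_pos t
    rw [e1]
    nlinarith
  linarith

/-- smooth maximum -/
lemma sm_symm (a b : ℝ) : a + ell (b - a) = b + ell (a - b) := by
  rw [ell_eq (b - a), neg_sub]
  ring

lemma exp_small {M c : ℝ} (h : c + 10 ≤ M) : Real.exp (c - M) ≤ 1 / 10 := by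
  have h1 : Real.exp (c - M) ≤ Real.exp (-10) := Real.exp_le_exp.2 (by linarith)
  have h2 : Real.exp (-10) = (Real.exp 10)⁻¹ := Real.exp_neg 10
  have h3 : (10 : ℝ) ≤ Real.exp 10 := by
    have := Real.add_one_le_exp (10 : ℝ)
    linarith
  have h4 : (Real.exp 10)⁻¹ ≤ (10 : ℝ)⁻¹ := inv_anti₀ (by norm_num) h3
  rw [h2] at h1
  have h5 : (10 : ℝ)⁻¹ = 1 / 10 := by norm_num
  linarith

/-- One regular cycle of six steps. -/
lemma regular {P M u X3 X4 X5 X6 X7 X8 : ℝ} (hP : |P - (M - u + 30)| ≤ 1) (hu : 40 ≤ u)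
    (hM : 200 ≤ M) (hd : 0 ≤ M - 30 - u)
    (r1 : X3 = ell u - (M - 30 + ell (P - (M - 30))))
    (r2 : X4 = ell X3 - (u - 30 + ell (M - (u - 30))))
    (r3 : X5 = ell X4 - (X3 - 30 + ell (u - (X3 - 30))))
    (r4 : X6 = ell X5 - (X4 - 30 + ell (X3 - (X4 - 30))))
    (r5 : X7 = ell X6 - (X5 - 30 + ell (X4 - (X5 - 30))))
    (r6 : X8 = ell X7 - (X6 - 30 + ell (X5 - (X6 - 30)))) :
    |X6 - (X7 - X8 + 30)| ≤ 1 ∧ u + 45 ≤ X8 ∧ X8 ≤ u + 63 ∧
    M - 8 * Real.exp (-2 * (M - 30 - u)) - Real.exp (96 - M) ≤ X7 ∧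
    X7 - 30 - X8 ≤ (M - 30 - u) - 36 := by
  obtain ⟨hP1, hP2⟩ := abs_le.1 hP
  set d := M - 30 - u with hdd
  rw [sm_symm] at r2 r3 r4
  rw [ell_eq u] at r1
  -- first error
  set a3 := ell (-u) - ell (P - (M - 30)) with ha3
  have e3 : X3 = u - M + 30 + a3 := by rw [r1, ha3]; ring
  have a3u : a3 ≤ 0 := by
    have := ell_mono (show -u ≤ P - (M - 30) by linarith)
    linarith
  have a3l : -22 ≤ a3 := by
    have h1 := ell_pos (-u)
    rcases le_total (P - (M - 30)) 0 with h | h
    · have := ell_le_of_nonpos h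
      linarith
    · have := ell_le_of_nonneg h
      linarith
  have a3e : -a3 ≤ Real.exp (61 - u) := by
    have h1 := ell_pos (-u)
    have h2 := ell_mono (show P - (M - 30) ≤ 61 - u by linarith)
    have h3 := ell_le_exp (61 - u)
    linarith
  -- second error
  set a4 := ell X3 - ell (u - 30 - M) with ha4
  have e4 : X4 = -M + a4 := by rw [r2, ha4]; ring
  have hX3 : X3 ≤ -d := by linarith
  have a4l : 0 ≤ a4 := by
    have := ell_mono (show u - 30 - M ≤ X3 by linarith)
    linarith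
  have a4u : a4 ≤ Real.exp (-d) := by
    have h1 := ell_pos (u - 30 - M)
    have h2 := ell_mono hX3
    have h3 := ell_le_exp (-d)
    linarith
  have hexpd : Real.exp (-d) ≤ 1 := Real.exp_le_one_iff.2 (by linarith)
  -- third error
  set a5 := ell X4 - ell (X3 - 30 - u) with ha5
  have e5 : X5 = -u + a5 := by rw [r3, ha5]; ring
  have b1 : Real.exp (1 - M) ≤ 1 / 10 := exp_small (by linarith)
  have a5u : a5 ≤ Real.exp (1 - M) := by
    have h1 := ell_pos (X3 - 30 - u)
    have h2 := ell_mono (show X4 ≤ 1 - M by linarith)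
    have h3 := ell_le_exp (1 - M)
    linarith
  have a5l : -Real.exp (1 - M) ≤ a5 := by
    have h1 := ell_pos X4
    have h2 := ell_mono (show X3 - 30 - u ≤ 1 - M by linarith)
    have h3 := ell_le_exp (1 - M)
    linarith
  -- fourth error
  set a6 := ell X5 - ell (X4 - 30 - X3) with ha6
  have e6 : X6 = -X3 + a6 := by rw [r4, ha6]; ring
  have a6l : 0 ≤ a6 := by
    have := ell_mono (show X4 - 30 - X3 ≤ X5 by linarith)
    linarith
  have a6u : a6 ≤ Real.exp (1 - u) := by
    have h1 := ell_pos (X4 - 30 - X3)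
    have h2 := ell_mono (show X5 ≤ 1 - u by linarith)
    have h3 := ell_le_exp (1 - u)
    linarith
  have b2 : Real.exp (1 - u) ≤ 1 / 10 := exp_small (by linarith)
  -- fifth error
  rw [ell_eq X6] at r5
  set a7 := ell (-X6) - ell (X4 - (X5 - 30)) with ha7
  have e7 : X7 = X6 - X5 + 30 + a7 := by rw [r5, ha7]; ring
  have hts : X4 - (X5 - 30) - (-X6) = a4 - a5 - a3 + a6 := by
    rw [e4, e5, e6, e3]
    ring
  have a7u : a7 ≤ Real.exp (1 - M) := by
    rcases le_total (-X6) (X4 - (X5 - 30)) with h | h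
    · have := ell_mono h
      linarith [Real.exp_pos (1 - M)]
    · have h1 := ell_sub_le h
      have h2 : Real.exp (-X6) ≤ 1 := Real.exp_le_one_iff.2 (by linarith)
      have h3 : -X6 - (X4 - (X5 - 30)) ≤ Real.exp (1 - M) := by linarith
      have h4 : (-X6 - (X4 - (X5 - 30))) * Real.exp (-X6) ≤
          (-X6 - (X4 - (X5 - 30))) * 1 := mul_le_mul_of_nonneg_left h2 (by linarith)
      linarith
  have a7l : -(8 * Real.exp (-2 * d) + Real.exp (95 - M)) ≤ a7 := by
    rcases le_total (-X6) (X4 - (X5 - 30)) with h | h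
    · have h1 := ell_sub_le h
      have h2 : Real.exp (X4 - (X5 - 30)) ≤ Real.exp (2 - d) := by
        apply Real.exp_le_exp.2
        linarith
      have h3 : X4 - (X5 - 30) - (-X6) ≤
          Real.exp (-d) + Real.exp (1 - M) + Real.exp (61 - u) + Real.exp (1 - u) := by
        rw [hts]
        linarith
      have h4 : (X4 - (X5 - 30) - (-X6)) * Real.exp (X4 - (X5 - 30)) ≤
          (Real.exp (-d) + Real.exp (1 - M) + Real.exp (61 - u) + Real.exp (1 - u)) *
            Real.exp (2 - d) :=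
        mul_le_mul h3 h2 (Real.exp_pos _).le (by positivity)
      have h5 : (Real.exp (-d) + Real.exp (1 - M) + Real.exp (61 - u) + Real.exp (1 - u)) *
            Real.exp (2 - d) = Real.exp (2 + -2 * d) + Real.exp (3 - M - d) +
            Real.exp (93 - M) + Real.exp (33 - M) := by
        simp only [add_mul, ← Real.exp_add]
        congr 1
        · congr 1
          · congr 1
            · congr 1
              ring
            · congr 1
              ring
          · congr 1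
            rw [hdd]
            ring
        · congr 1
          rw [hdd]
          ring
      have h6 : Real.exp (2 + -2 * d) ≤ 8 * Real.exp (-2 * d) := by
        rw [Real.exp_add]
        have : Real.exp 2 ≤ 8 := by
          have h7 : Real.exp 1 < 2.7182818286 := Real.exp_one_lt_d9
          have h8 : Real.exp 2 = Real.exp 1 * Real.exp 1 := by
            rw [← Real.exp_add]
            norm_num
          rw [h8]
          nlinarith [Real.exp_pos 1]
        exact mul_le_mul_of_nonneg_right this (Real.exp_pos _).le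
      have h7 : Real.exp (3 - M - d) ≤ Real.exp (93 - M) := Real.exp_le_exp.2 (by linarith)
      have h8 : Real.exp (33 - M) ≤ Real.exp (93 - M) := Real.exp_le_exp.2 (by linarith)
      have h9 : 3 * Real.exp (93 - M) ≤ Real.exp (95 - M) := by
        have e : Real.exp (95 - M) = Real.exp 2 * Real.exp (93 - M) := by
          rw [← Real.exp_add]
          congr 1
          ring
        rw [e]
        have : (3 : ℝ) ≤ Real.exp 2 := by
          have := Real.add_one_le_exp (2 : ℝ)
          linarith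
        exact mul_le_mul_of_nonneg_right this (Real.exp_pos _).le
      rw [h5] at h4
      linarith
    · have := ell_mono h
      linarith [Real.exp_pos (-2 * d), Real.exp_pos (95 - M)]
  -- the new height
  have hM' : X7 = M - a3 + a6 - a5 + a7 := by
    rw [e7, e6, e5, e3]
    ring
  have b3 : Real.exp (95 - M) ≤ 1 / 10 := exp_small (by linarith)
  have b4 : Real.exp (-2 * d) ≤ 1 := Real.exp_le_one_iff.2 (by linarith)
  have hX7l : M - 9 ≤ X7 := by linarith
  -- sixth error
  rw [ell_eq X7] at r6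
  set a8 := ell (-X7) - ell (X5 - (X6 - 30)) with ha8
  have e8 : X8 = X7 - X6 + 30 + a8 := by rw [r6, ha8]; ring
  have b5 : Real.exp (61 - M) ≤ 1 / 10 := exp_small (by linarith)
  have a8u : a8 ≤ 1 / 10 := by
    have h1 := ell_pos (X5 - (X6 - 30))
    have h2 := ell_mono (show -X7 ≤ 61 - M by linarith)
    have h3 := ell_le_exp (61 - M)
    linarith
  have a8l : -(1 / 10) ≤ a8 := by
    have h1 := ell_pos (-X7)
    have h2 := ell_mono (show X5 - (X6 - 30) ≤ 61 - M by linarith)
    have h3 := ell_le_exp (61 - M)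
    linarith
  have b6 : Real.exp (1 - M) + Real.exp (95 - M) ≤ Real.exp (96 - M) := by
    have e : Real.exp (96 - M) = Real.exp 1 * Real.exp (95 - M) := by
      rw [← Real.exp_add]
      congr 1
      ring
    have h1 : (2 : ℝ) ≤ Real.exp 1 := by
      have := Real.add_one_le_exp (1 : ℝ)
      linarith
    have h2 : Real.exp (1 - M) ≤ Real.exp (95 - M) := Real.exp_le_exp.2 (by linarith)
    have h3 := mul_le_mul_of_nonneg_right h1 (Real.exp_pos (95 - M)).le
    rw [e]
    linarith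
  refine ⟨?_, ?_, ?_, ?_, ?_⟩
  · rw [abs_le]
    constructor <;> linarith
  · linarith
  · linarith
  · linarith
  · linarith

/-- The seven steps of a turn. -/
lemma turn {P M u X3 X4 X5 X6 X7 X8 X9 : ℝ} (hP : |P - (M - u + 30)| ≤ 1)
    (hM : 500 ≤ M) (hv : 0 ≤ u - M + 30) (hv' : u - M + 30 ≤ 75)
    (r1 : X3 = ell u - (M - 30 + ell (P - (M - 30))))
    (r2 : X4 = ell X3 - (u - 30 + ell (M - (u - 30))))
    (r3 : X5 = ell X4 - (X3 - 30 + ell (u - (X3 - 30))))
    (r4 : X6 = ell X5 - (X4 - 30 + ell (X3 - (X4 - 30))))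
    (r5 : X7 = ell X6 - (X5 - 30 + ell (X4 - (X5 - 30))))
    (r6 : X8 = ell X7 - (X6 - 30 + ell (X5 - (X6 - 30))))
    (r7 : X9 = ell X8 - (X7 - 30 + ell (X6 - (X7 - 30)))) :
    |X7 - (X8 - X9 + 30)| ≤ 1 ∧ 56 ≤ X9 ∧ X9 ≤ 139 ∧ M + 24 ≤ X8 := by
  obtain ⟨hP1, hP2⟩ := abs_le.1 hP
  set v := u - M + 30 with hvd
  have s1 := le_ell u
  have s1' := ell_le_of_nonneg (show 0 ≤ u by linarith)
  have s2 := ell_pos (P - (M - 30))
  have s2' := ell_le_of_nonpos (show P - (M - 30) ≤ 0 by linarith)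
  have x3 : v - 1 ≤ X3 := by linarith
  have x3' : X3 ≤ v + 1 := by linarith
  -- X4
  have s3 : 0 ≤ ell X3 := (ell_pos X3).le
  have s3b : X3 ≤ ell X3 := le_ell X3
  have s3' : ell X3 ≤ v + 2 := by
    have h1 := ell_mono x3'
    have h2 := ell_le_of_nonneg (show 0 ≤ v + 1 by linarith)
    linarith
  have s4 : M ≤ u - 30 + ell (M - (u - 30)) := by
    have := le_ell (M - (u - 30))
    linarith
  have s4' : u - 30 + ell (M - (u - 30)) ≤ M + 16 := by
    rcases le_total (M - (u - 30)) 0 with h | h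
    · have := ell_le_of_nonpos h
      linarith
    · have := ell_le_of_nonneg h
      linarith
  have x4 : v - M - 17 ≤ X4 := by linarith
  have x4' : X4 ≤ v - M + 2 := by linarith
  -- X5
  have s5 := ell_pos X4
  have s5' := ell_le_of_nonpos (show X4 ≤ 0 by linarith)
  rw [sm_symm (X3 - 30) u] at r3
  have s6 := ell_pos (X3 - 30 - u)
  have s6' := ell_le_of_nonpos (show X3 - 30 - u ≤ 0 by linarith)
  have x5 : -u - 1 ≤ X5 := by linarith
  have x5' : X5 ≤ -u + 1 := by linarith
  -- X6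
  have s7 := ell_pos X5
  have s7' := ell_le_of_nonpos (show X5 ≤ 0 by linarith)
  rw [sm_symm (X4 - 30) X3] at r4
  have s8 := ell_pos (X4 - 30 - X3)
  have s8' := ell_le_of_nonpos (show X4 - 30 - X3 ≤ 0 by linarith)
  have x6 : -v - 2 ≤ X6 := by linarith
  have x6' : X6 ≤ -v + 2 := by linarith
  -- X7
  have s9 := ell_pos X6
  have s9' : ell X6 ≤ 3 := by
    have h1 := ell_mono (show X6 ≤ 2 by linarith)
    have h2 := ell_le_of_nonneg (show (0 : ℝ) ≤ 2 by norm_num)
    linarith
  have s10 : X4 ≤ X5 - 30 + ell (X4 - (X5 - 30)) := by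
    have := le_ell (X4 - (X5 - 30))
    linarith
  have s10' : X5 - 30 + ell (X4 - (X5 - 30)) ≤ v - M + 3 := by
    rcases le_total (X4 - (X5 - 30)) 0 with h | h
    · have := ell_le_of_nonpos h
      linarith
    · have := ell_le_of_nonneg h
      linarith
  have x7 : M - v - 3 ≤ X7 := by linarith
  have x7' : X7 ≤ M - v + 20 := by linarith
  -- X8
  have s11 := le_ell X7
  have s11' := ell_le_of_nonneg (show 0 ≤ X7 by linarith)
  have s12 := ell_pos (X5 - (X6 - 30))
  have s12' := ell_le_of_nonpos (show X5 - (X6 - 30) ≤ 0 by linarith)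
  have x8 : M + 24 ≤ X8 := by linarith
  -- X9
  have s13 := le_ell X8
  have s13' := ell_le_of_nonneg (show 0 ≤ X8 by linarith)
  have s14 := ell_pos (X6 - (X7 - 30))
  have s14' := ell_le_of_nonpos (show X6 - (X7 - 30) ≤ 0 by linarith)
  refine ⟨?_, ?_, ?_, x8⟩
  · rw [abs_le]
    constructor <;> linarith
  · linarith
  · linarith

/-- The recurrence in logarithmic coordinates. -/
def Rec (X : ℕ → ℝ) : Prop :=
  ∀ n, X (n + 3) = ell (X (n + 2)) - (X (n + 1) - 30 + ell (X n - (X (n + 1) - 30)))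

/-- States in standard form. -/
def Std (X : ℕ → ℝ) (n : ℕ) : Prop :=
  |X n - (X (n + 1) - X (n + 2) + 30)| ≤ 1 ∧ 40 ≤ X (n + 2)

lemma phase {X : ℕ → ℝ} (hX : Rec X) {M0 θ : ℝ} (hM0 : 1000 ≤ M0) (hθ : 0 < θ)
    (hθM : θ * M0 ≤ 1 / 4) (hθe : Real.exp (98 - M0) ≤ θ) :
    ∀ (N n : ℕ), Std X n → 0 ≤ X (n + 1) - 30 - X (n + 2) →
      X (n + 1) - 30 - X (n + 2) ≤ N →
      M0 ≤ X (n + 1) + Real.exp (-(X (n + 1) - 30 - X (n + 2))) + θ * X (n + 2) →
      ∃ m, Std X m ∧ X (m + 1) - 30 - X (m + 2) < 0 ∧ M0 - 12 ≤ X (m + 1) ∧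
        X (m + 2) - X (m + 1) + 30 ≤ 75 := by
  intro N
  induction N with
  | zero =>
    intro n hS h0 h1 hV
    -- one more cycle
    obtain ⟨hS1, hS2⟩ := hS
    have hM : M0 - 2 ≤ X (n + 1) := by
      have e1 : Real.exp (-(X (n + 1) - 30 - X (n + 2))) ≤ 1 :=
        Real.exp_le_one_iff.2 (by linarith)
      by_contra hcon
      push Not at hcon
      have : θ * X (n + 2) ≤ θ * M0 := mul_le_mul_of_nonneg_left (by linarith) hθ.le
      linarith
    obtain ⟨g1, g2, g3, g4, g5⟩ := regular hS1 hS2 (by linarith) h0 (hX n) (hX (n + 1))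
      (hX (n + 2)) (hX (n + 3)) (hX (n + 4)) (hX (n + 5))
    have b4 : Real.exp (-2 * (X (n + 1) - 30 - X (n + 2))) ≤ 1 :=
      Real.exp_le_one_iff.2 (by linarith)
    have b5 : Real.exp (96 - X (n + 1)) ≤ 1 / 10 := exp_small (by linarith)
    push_cast at h1
    refine ⟨n + 6, ⟨g1, ?_⟩, ?_, ?_, ?_⟩
    · show 40 ≤ X (n + 5 + 3)
      linarith
    · show X (n + 4 + 3) - 30 - X (n + 5 + 3) < 0
      linarith
    · show M0 - 12 ≤ X (n + 4 + 3)
      linarith
    · show X (n + 5 + 3) - X (n + 4 + 3) + 30 ≤ 75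
      linarith
  | succ N ih =>
    intro n hS h0 h1 hV
    obtain ⟨hS1, hS2⟩ := hS
    have hM : M0 - 2 ≤ X (n + 1) := by
      have e1 : Real.exp (-(X (n + 1) - 30 - X (n + 2))) ≤ 1 :=
        Real.exp_le_one_iff.2 (by linarith)
      by_contra hcon
      push Not at hcon
      have : θ * X (n + 2) ≤ θ * M0 := mul_le_mul_of_nonneg_left (by linarith) hθ.le
      linarith
    obtain ⟨g1, g2, g3, g4, g5⟩ := regular hS1 hS2 (by linarith) h0 (hX n) (hX (n + 1))
      (hX (n + 2)) (hX (n + 3)) (hX (n + 4)) (hX (n + 5))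
    have b4 : Real.exp (-2 * (X (n + 1) - 30 - X (n + 2))) ≤ 1 :=
      Real.exp_le_one_iff.2 (by linarith)
    have b5 : Real.exp (96 - X (n + 1)) ≤ 1 / 10 := exp_small (by linarith)
    push_cast at h1
    rcases lt_or_ge (X (n + 4 + 3) - 30 - X (n + 5 + 3)) 0 with hneg | hnn
    · refine ⟨n + 6, ⟨g1, ?_⟩, hneg, ?_, ?_⟩
      · show 40 ≤ X (n + 5 + 3)
        linarith
      · show M0 - 12 ≤ X (n + 4 + 3)
        linarith
      · show X (n + 5 + 3) - X (n + 4 + 3) + 30 ≤ 75
        linarith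
    · refine ih (n + 6) ⟨g1, ?_⟩ hnn ?_ ?_
      · show 40 ≤ X (n + 5 + 3)
        linarith
      · show X (n + 4 + 3) - 30 - X (n + 5 + 3) ≤ N
        linarith
      · show M0 ≤ X (n + 4 + 3) + Real.exp (-(X (n + 4 + 3) - 30 - X (n + 5 + 3))) +
          θ * X (n + 5 + 3)
        set d := X (n + 1) - 30 - X (n + 2) with hd
        set d' := X (n + 4 + 3) - 30 - X (n + 5 + 3) with hd'
        have c1 : Real.exp (96 - X (n + 1)) ≤ θ :=
          (Real.exp_le_exp.2 (by linarith)).trans hθe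
        have c2 : 9 * Real.exp (-d) ≤ Real.exp (-d') := by
          have e1 : Real.exp (36 - d) ≤ Real.exp (-d') := Real.exp_le_exp.2 (by linarith)
          have e2 : Real.exp (36 - d) = Real.exp 36 * Real.exp (-d) := by
            rw [← Real.exp_add]
            congr 1
          have e3 : (9 : ℝ) ≤ Real.exp 36 := by
            have := Real.add_one_le_exp (36 : ℝ)
            linarith
          have e4 := mul_le_mul_of_nonneg_right e3 (Real.exp_pos (-d)).le
          linarith
        have c3 : Real.exp (-2 * d) ≤ Real.exp (-d) := Real.exp_le_exp.2 (by linarith)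
        have c4 : θ * (X (n + 2) + 45) ≤ θ * X (n + 5 + 3) :=
          mul_le_mul_of_nonneg_left g2 hθ.le
        linarith

lemma phase' {X : ℕ → ℝ} (hX : Rec X) {n : ℕ} (hS : Std X n) (hM : 1000 ≤ X (n + 1))
    (hu : X (n + 2) ≤ 200) :
    ∃ m, Std X m ∧ 1000 ≤ X (m + 1) ∧ X (m + 2) ≤ 200 ∧ X (n + 1) + 10 ≤ X (m + 1) := by
  set M0 := X (n + 1) with hM0
  set θ := 1 / (4 * M0) with hθ
  have hθ0 : 0 < θ := by positivity
  have hθM : θ * M0 ≤ 1 / 4 := by
    rw [hθ]
    apply le_of_eq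
    field_simp
  have hθe : Real.exp (98 - M0) ≤ θ := by
    have h1 := Real.quadratic_le_exp_of_nonneg (show 0 ≤ M0 - 98 by linarith)
    have h2 : 4 * M0 ≤ Real.exp (M0 - 98) := by nlinarith
    have h3 : Real.exp (98 - M0) = (Real.exp (M0 - 98))⁻¹ := by
      rw [← Real.exp_neg]
      congr 1
      ring
    rw [h3, hθ, one_div]
    exact inv_anti₀ (by positivity) h2
  obtain ⟨N, hN⟩ := exists_nat_ge (X (n + 1) - 30 - X (n + 2))
  obtain ⟨m, hm1, hm2, hm3, hm4⟩ := phase hX hM hθ0 hθM hθe N n hS (by linarith) hN (by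
    have e1 := Real.exp_pos (-(X (n + 1) - 30 - X (n + 2)))
    have e2 : 0 ≤ θ * X (n + 2) := mul_nonneg hθ0.le (by linarith [hS.2])
    linarith)
  obtain ⟨g1, g2, g3, g4⟩ := turn hm1.1 (by linarith) (by linarith) hm4 (hX m) (hX (m + 1))
    (hX (m + 2)) (hX (m + 3)) (hX (m + 4)) (hX (m + 5)) (hX (m + 6))
  refine ⟨m + 7, ⟨g1, ?_⟩, ?_, ?_, ?_⟩
  · show 40 ≤ X (m + 6 + 3)
    linarith
  · show 1000 ≤ X (m + 5 + 3)
    linarith
  · show X (m + 6 + 3) ≤ 200
    linarith
  · show M0 + 10 ≤ X (m + 5 + 3)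
    linarith

lemma unbounded_of_rec {X : ℕ → ℝ} (hX : Rec X) (h0 : X 0 = 930) (h1 : X 1 = 1000)
    (h2 : X 2 = 100) (C : ℝ) : ∃ n, C < X n := by
  have key : ∀ j : ℕ, ∃ n, Std X n ∧ 1000 ≤ X (n + 1) ∧ X (n + 2) ≤ 200 ∧ (j : ℝ) ≤ X (n + 1) := by
    intro j
    induction j with
    | zero =>
      refine ⟨0, ⟨?_, ?_⟩, ?_, ?_, ?_⟩
      · show |X 0 - (X 1 - X 2 + 30)| ≤ 1
        rw [h0, h1, h2]
        norm_num
      · show 40 ≤ X 2
        rw [h2]
        norm_num
      · show 1000 ≤ X 1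
        rw [h1]
      · show X 2 ≤ 200
        rw [h2]
        norm_num
      · show ((0 : ℕ) : ℝ) ≤ X 1
        rw [h1]
        norm_num
    | succ j ih =>
      obtain ⟨n, hn, hM, hu, hj⟩ := ih
      obtain ⟨m, hm, hM', hu', hj'⟩ := phase' hX hn hM hu
      refine ⟨m, hm, hM', hu', ?_⟩
      push_cast
      linarith
  obtain ⟨j, hj⟩ := exists_nat_gt C
  obtain ⟨n, -, -, -, hn⟩ := key j
  exact ⟨n + 1, by linarith⟩

/-- There is an unbounded solution for `α = 1` and `C = e^{-30}`. -/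
theorem result : ∃ α C : ℝ, 0 < α ∧ 0 < C ∧
    ∃ x : ℕ → ℝ, (∀ n, 0 < x n) ∧
      (∀ n, x (n + 3) = (α + x (n + 2)) / (C * x (n + 1) + x n)) ∧ ∀ M : ℝ, ∃ n, M < x n := by
  refine ⟨1, Real.exp (-30), one_pos, Real.exp_pos _, ?_⟩
  set C := Real.exp (-30) with hC
  have hC0 : 0 < C := Real.exp_pos _
  have main : ∀ x : ℕ → ℝ, (∀ n, 0 < x n) →
      (∀ n, x (n + 3) = (1 + x (n + 2)) / (C * x (n + 1) + x n)) →
      x 0 = Real.exp 930 → x 1 = Real.exp 1000 → x 2 = Real.exp 100 →
      ∀ M : ℝ, ∃ n, M < x n := by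
    intro x hpos hrec h0 h1 h2 M
    have hX : Rec (fun n => Real.log (x n)) := by
      intro n
      have p2 := hpos (n + 2)
      have p1 := hpos (n + 1)
      have p0 := hpos n
      show Real.log (x (n + 3)) = ell (Real.log (x (n + 2))) - (Real.log (x (n + 1)) - 30 +
        ell (Real.log (x n) - (Real.log (x (n + 1)) - 30)))
      have e1 : ell (Real.log (x (n + 2))) = Real.log (1 + x (n + 2)) := by
        unfold ell
        rw [Real.exp_log p2]
      have e2 : Real.log (x (n + 1)) - 30 + ell (Real.log (x n) - (Real.log (x (n + 1)) - 30)) =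
          Real.log (C * x (n + 1) + x n) := by
        have e3 : Real.log (x (n + 1)) - 30 = Real.log (C * x (n + 1)) := by
          rw [Real.log_mul hC0.ne' p1.ne', hC, Real.log_exp]
          ring
        rw [e3]
        unfold ell
        rw [Real.exp_sub, Real.exp_log p0, Real.exp_log (by positivity),
          ← Real.log_mul (by positivity) (by positivity)]
        congr 1
        field_simp
      rw [e1, e2, hrec n, Real.log_div (by positivity) (by positivity)]
    obtain ⟨n, hn⟩ := unbounded_of_rec hX (by rw [h0, Real.log_exp]) (by rw [h1, Real.log_exp])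
      (by rw [h2, Real.log_exp]) M
    refine ⟨n, ?_⟩
    have h3 : Real.log (x n) ≤ x n - 1 := Real.log_le_sub_one_of_pos (hpos n)
    linarith
  set f : ℕ → ℝ × ℝ × ℝ := fun n =>
    Nat.rec ((Real.exp 930, Real.exp 1000, Real.exp 100) : ℝ × ℝ × ℝ)
      (fun _ s => (s.2.1, s.2.2, (1 + s.2.2) / (C * s.2.1 + s.1))) n with hf
  have hfs : ∀ n, f (n + 1) =
      ((f n).2.1, (f n).2.2, (1 + (f n).2.2) / (C * (f n).2.1 + (f n).1)) := fun n => rfl
  have hpos : ∀ n, 0 < (f n).1 ∧ 0 < (f n).2.1 ∧ 0 < (f n).2.2 := by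
    intro n
    induction n with
    | zero => exact ⟨Real.exp_pos _, Real.exp_pos _, Real.exp_pos _⟩
    | succ n ih =>
      rw [hfs]
      obtain ⟨i1, i2, i3⟩ := ih
      exact ⟨i2, i3, by positivity⟩
  have hrec : ∀ n, (f (n + 3)).1 = (1 + (f (n + 2)).1) / (C * (f (n + 1)).1 + (f n).1) := by
    intro n
    rw [hfs (n + 2), hfs (n + 1), hfs n]
  exact ⟨fun n => (f n).1, fun n => (hpos n).1, hrec,
    main _ (fun n => (hpos n).1) hrec rfl rfl rfl⟩

end Pool.Agent.Results.MP_db9acb_an.Unbounded
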